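import Mathlib
import Pool.Agent.N485.CcGroup

set_option autoImplicit false

/-!
MP_e377f6_gt, Q1: the answer is negative. Under `ω₁ < 𝔭` (in particular under Martin's axiom with
the negation of the continuum hypothesis) every dense countably compact subgroup of `K^{ω₁}`
contains an uncountable compact subset.
-/

open Cardinal Topology

namespace Pool.Agent.Results.MP_e377f6_gt.CcSubgroups

/-- `ω₁ < 𝔭`: whenever `F` is a family of subsets of `ℕ`, indexed by a set of size at most `ℵ₁`,
all of whose finite intersections are infinite, there is an infinite `A ⊆ ℕ` with `A \ F i` finite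
for every `i`. -/
def OmegaOneLtP : Prop :=
  ∀ (I : Type) (F : I → Set ℕ), #I ≤ ℵ₁ → (∀ s : Finset I, (⋂ i ∈ s, F i).Infinite) →
    ∃ A : Set ℕ, A.Infinite ∧ ∀ i, (A \ F i).Finite

/-- Every countable open cover of `D` has a finite subcover. -/
def CountablyCompact {X : Type} [TopologicalSpace X] (D : Set X) : Prop :=
  ∀ U : ℕ → Set X, (∀ n, IsOpen (U n)) → D ⊆ ⋃ n, U n → ∃ t : Finset ℕ, D ⊆ ⋃ n ∈ t, U n

/-- `K^ι` has a dense countably compact subgroup all of whose compact subsets are countable. -/
def HasSmallSubgroup (K ι : Type) [AddCommGroup K] [TopologicalSpace K] : Prop :=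
  ∃ D : AddSubgroup (ι → K), Dense (D : Set (ι → K)) ∧ CountablyCompact (D : Set (ι → K)) ∧
    ∀ C : Set (ι → K), C ⊆ D → IsCompact C → C.Countable

theorem infinite_of_dense {K ι : Type} [AddCommGroup K] [TopologicalSpace K] [T2Space K]
    [Nontrivial K] [Infinite ι] (D : AddSubgroup (ι → K)) (hD : Dense (D : Set (ι → K))) :
    (D : Set (ι → K)).Infinite := by
  intro hf
  have h1 : (D : Set (ι → K)) = Set.univ := by
    rw [← hf.isClosed.closure_eq]
    exact hD.closure_eq
  rw [h1] at hf
  exact Set.infinite_univ hf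

theorem not_has {K ι : Type} [AddCommGroup K] [TopologicalSpace K] [IsTopologicalAddGroup K]
    [CompactSpace K] [T2Space K] [FirstCountableTopology K] [Nontrivial K]
    (hp : OmegaOneLtP) (hι : #ι = ℵ₁) : ¬ HasSmallSubgroup K ι := by
  rintro ⟨D, hd, hc, hC⟩
  have hinf : Infinite ι := by
    rw [Cardinal.infinite_iff, hι]
    exact aleph0_le_aleph 1
  obtain ⟨C, hCD, hcomp, hunc⟩ := Pool.Agent.N485.CcGroup.exists_uncountable hp hι.le D
    (isCountablyCompact_iff_countable_open_cover.2 hc) (infinite_of_dense D hd)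
  exact hunc (hC C hCD hcomp)

/-- **Main theorem.** Assume `ω₁ < 𝔭`.

1. For no compact, Hausdorff, first countable abelian group `K ≠ 0` (in particular neither for
`K = ℝ/ℤ` nor for `K = ℤ/p`) does `K^{ω₁}` have a dense countably compact subgroup all of whose
compact subsets are countable.
2. More precisely, every infinite countably compact subgroup `D` of `K^{ω₁}` contains the closure
of each of its countable subsets, and has an uncountable compact subgroup. -/
theorem result (hp : OmegaOneLtP) (ι : Type) (hι : #ι = ℵ₁) :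
    ¬ HasSmallSubgroup UnitAddCircle ι ∧
    (∀ p : ℕ, p.Prime → ¬ HasSmallSubgroup (ZMod p) ι) ∧
    (∀ (K : Type) [AddCommGroup K] [TopologicalSpace K] [IsTopologicalAddGroup K]
      [CompactSpace K] [T2Space K] [FirstCountableTopology K] (D : AddSubgroup (ι → K)),
      CountablyCompact (D : Set (ι → K)) → (D : Set (ι → K)).Infinite →
        (∀ S : Set (ι → K), S ⊆ D → S.Countable → closure S ⊆ D) ∧
        ∃ C : AddSubgroup (ι → K), C ≤ D ∧ IsCompact (C : Set (ι → K)) ∧
          ¬ (C : Set (ι → K)).Countable) := by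
  have hnt : Nontrivial UnitAddCircle := by
    refine ⟨⟨((1 / 2 : ℝ) : UnitAddCircle), 0, ?_⟩⟩
    intro h
    rw [AddCircle.coe_eq_zero_iff] at h
    obtain ⟨n, hn⟩ := h
    have h1 : (n : ℝ) = 1 / 2 := by simpa using hn
    have h2 : ((2 * n : ℤ) : ℝ) = ((1 : ℤ) : ℝ) := by push_cast; linarith
    have h3 : 2 * n = 1 := by exact_mod_cast h2
    omega
  refine ⟨not_has hp hι, ?_, ?_⟩
  · intro p hpp
    have : Fact p.Prime := ⟨hpp⟩
    have : NeZero p := ⟨hpp.ne_zero⟩
    have : Nontrivial (ZMod p) := ZMod.nontrivial_iff.2 hpp.one_lt.ne'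
    exact not_has hp hι
  · intro K _ _ _ _ _ _ D hc hinf
    have hc' := isCountablyCompact_iff_countable_open_cover.2 hc
    exact ⟨fun S hS hSc => Pool.Agent.N485.CcGroup.closure_subset hp hι.le _ hc' S hS hSc,
      Pool.Agent.N485.CcGroup.exists_uncountable hp hι.le D hc' hinf⟩

end Pool.Agent.Results.MP_e377f6_gt.CcSubgroups
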